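import Pool.Agent.L7h66.UA.StmX

/-!
# Project UA, part LRC: classes closed under younger structures over finite sets
-/

set_option autoImplicit false

namespace Pool.Agent.L7h87.UA

open Set Function
open Pool.Agent.L7h66.UA

variable {a : ℕ → ℕ} {K : ℕ → Type}

/-- the values of the code: quantifier-free types of `r`-tuples -/
abbrev KK (a : ℕ → ℕ) (K : ℕ → Type) (r : ℕ) : Type := ∀ i, (Fin (a i) → Fin r) → K i

/-- the arities of the code -/
abbrev ar : ℕ → ℕ := fun r => r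

/-- the code -/
def enc (M : XS a K ℕ) : XS ar (KK a K) ℕ := fun _ u i t => M i (u ∘ t)

/-- decoding -/
def dec (N : XS ar (KK a K) ℕ) : XS a K ℕ := fun i x => N (a i) x i id

lemma dec_enc (M : XS a K ℕ) : dec (enc M) = M := rfl

lemma enc_iso {M N : XS a K ℕ} (h : XIso M N) : XIso (enc M) (enc N) := by
  obtain ⟨e, he⟩ := h
  refine ⟨e, fun r u => ?_⟩
  funext i t
  exact he i (u ∘ t)

lemma dec_iso {M N : XS ar (KK a K) ℕ} (h : XIso M N) : XIso (dec M) (dec N) := by
  obtain ⟨e, he⟩ := h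
  refine ⟨e, fun i x => ?_⟩
  exact congrFun (congrFun (he (a i) x) i) id

/-- coherence: the structure is a code -/
def Coh' (N : XS ar (KK a K) ℕ) : Prop := enc (dec N) = N

lemma Coh'.eq {N : XS ar (KK a K) ℕ} (h : Coh' N) (r : ℕ) (u : Fin r → ℕ) (i : ℕ) (t : Fin (a i) → Fin r) :
    dec N i (u ∘ t) = N r u i t := congrFun (congrFun (congrFun (congrFun h r) u) i) t

lemma coh_iso {M N : XS ar (KK a K) ℕ} (hM : Coh' M) (h : XIso M N) : Coh' N := by
  obtain ⟨e, he⟩ := h
  have hd : ∀ i x, dec N i (e ∘ x) = dec M i x := fun i x => congrFun (congrFun (he (a i) x) i) id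
  unfold Coh'
  funext r u i t
  have e1 : u = e ∘ (e.symm ∘ u) := by
    funext j
    simp
  show dec N i (u ∘ t) = N r u i t
  have e2 : u ∘ t = e ∘ ((e.symm ∘ u) ∘ t) := by
    funext j
    simp
  rw [e2, hd, hM.eq r (e.symm ∘ u) i t]
  have e3 := congrFun (congrFun (he r (e.symm ∘ u)) i) t
  rw [← e1] at e3
  exact e3.symm

lemma coh_loc {F : Finset ℕ} {N P : XS ar (KK a K) ℕ} (hN : Coh' N) (h : XLoc F N P) : Coh' P := by
  unfold Coh'
  funext r u i t
  show P (a i) (u ∘ t) i id = P r u i t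
  obtain ⟨e, -, -, -, he⟩ := h (Finset.univ.image u) (max r (a i) + 1)
  have h1 := he r (by omega) u (fun j => Finset.mem_image_of_mem u (Finset.mem_univ j))
  have h2 := he (a i) (by omega) (u ∘ t) (fun j => Finset.mem_image_of_mem u (Finset.mem_univ (t j)))
  rw [← h1, ← h2]
  exact hN.eq r (e ∘ u) i t

lemma loc_yo {F : Finset ℕ} {N P : XS ar (KK a K) ℕ} (hN : Coh' N) (hP : Coh' P) (h : XLoc F N P) :
    XYo F (dec N) (dec P) := by
  intro X
  obtain ⟨e, h1, h2, -, h4⟩ := h X (X.card + 1)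
  refine ⟨e, h1, h2, fun i x hx => ?_⟩
  set u : Fin X.card → ℕ := fun j => (X.equivFin.symm j : ℕ) with hu
  have hux : ∀ p ∈ X, ∃ j, u j = p := by
    intro p hp
    refine ⟨X.equivFin ⟨p, hp⟩, ?_⟩
    simp [hu]
  choose t ht using fun j => hux (x j) (hx j)
  have e1 : x = u ∘ t := by
    funext j
    exact (ht j).symm
  have h5 := h4 X.card (by omega) u (fun j => (X.equivFin.symm j).2)
  rw [e1]
  have h6 : e ∘ (u ∘ t) = (e ∘ u) ∘ t := rfl
  rw [h6, hN.eq X.card (e ∘ u) i t, hP.eq X.card u i t]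
  exact congrFun (congrFun h5 i) t

theorem s_LRC (hA : S_ALX) : S_LRC := by
  intro a K _ _ _ _ B hB hiso hyo
  have hdc : Continuous (dec : XS ar (KK a K) ℕ → XS a K ℕ) := by
    refine continuous_pi fun i => continuous_pi fun x => ?_
    show Continuous fun N : XS ar (KK a K) ℕ => N (a i) x i id
    fun_prop
  have hec : Continuous (enc : XS a K ℕ → XS ar (KK a K) ℕ) := by
    refine continuous_pi fun r => continuous_pi fun u => continuous_pi fun i => continuous_pi fun t => ?_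
    show Continuous fun M : XS a K ℕ => M i (u ∘ t)
    fun_prop
  have hB' : MeasurableSet {N : XS ar (KK a K) ℕ | Coh' N ∧ dec N ∈ B} := by
    apply MeasurableSet.inter
    · exact (isClosed_eq (hec.comp hdc) continuous_id).measurableSet
    · exact hdc.measurable hB
  rcases hA ar (KK a K) {N | Coh' N ∧ dec N ∈ B} hB' (fun M hM N h => ⟨coh_iso hM.1 h, hiso _ hM.2 _ (dec_iso h)⟩)
    (fun M hM => by
      obtain ⟨F, hF⟩ := hyo _ hM.2
      exact ⟨F, fun N hN => ⟨coh_loc hM.1 hN, hF _ (loc_yo hM.1 (coh_loc hM.1 hN) hN)⟩⟩) with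
    ⟨C, hC, hC2⟩ | ⟨g, g1, g2, g3⟩
  · left
    refine ⟨dec '' C, hC.image _, fun M hM => ?_⟩
    obtain ⟨N, hN, hNM⟩ := hC2 (enc M) ⟨congrArg enc (dec_enc M), by rw [dec_enc]; exact hM⟩
    exact ⟨dec N, ⟨N, hN, rfl⟩, dec_iso hNM⟩
  · right
    refine ⟨dec ∘ g, hdc.comp g1, fun c => (g2 c).2, fun c d h => g3 c d ?_⟩
    have h1 := enc_iso h
    have h2 : enc (dec (g c)) = g c := (g2 c).1
    have h3 : enc (dec (g d)) = g d := (g2 d).1
    simp only [comp_apply] at h1
    rwa [h2, h3] at h1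

end Pool.Agent.L7h87.UA
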